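import Mathlib

namespace Pool.Agent.W344.HS

open Finset

/-- The block `1/a + 1/(a+1) + ... + 1/(2a-1)` is at most `5/6` as soon as `a ≥ 2`. -/
theorem block_le (a : ℕ) (ha : 2 ≤ a) :
    ∑ n ∈ Finset.Ico a (2 * a), (1 / (n : ℚ)) ≤ 5 / 6 := by
  induction a, ha using Nat.le_induction with
  | base =>
    norm_num [Finset.sum_Ico_succ_top]
  | succ a ha ih =>
    have h1 : ∑ n ∈ Finset.Ico a (2 * a), (1 / (n : ℚ))
        = 1 / (a : ℚ) + ∑ n ∈ Finset.Ico (a + 1) (2 * a), (1 / (n : ℚ)) :=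
      Finset.sum_eq_sum_Ico_succ_bot (by omega) _
    have h2 : ∑ n ∈ Finset.Ico (a + 1) (2 * (a + 1)), (1 / (n : ℚ))
        = ∑ n ∈ Finset.Ico (a + 1) (2 * a), (1 / (n : ℚ)) + 1 / ((2 * a : ℕ) : ℚ)
          + 1 / ((2 * a + 1 : ℕ) : ℚ) := by
      rw [show 2 * (a + 1) = (2 * a + 1) + 1 by ring,
        Finset.sum_Ico_succ_top (by omega), Finset.sum_Ico_succ_top (by omega)]
    have ha0 : (0 : ℚ) < a := by exact_mod_cast (by omega : 0 < a)
    have h3 : 1 / ((2 * a : ℕ) : ℚ) + 1 / ((2 * a + 1 : ℕ) : ℚ) ≤ 1 / (a : ℚ) := by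
      push_cast
      rw [div_add_div _ _ (by positivity) (by positivity), div_le_div_iff₀ (by positivity) ha0]
      nlinarith
    rw [h2]
    rw [h1] at ih
    linarith

theorem norm_inv (n : ℕ) (hn : n ≠ 0) :
    padicNorm 2 (1 / (n : ℚ)) = (2 : ℚ) ^ (padicValNat 2 n) := by
  have hn' : (n : ℚ) ≠ 0 := by exact_mod_cast hn
  rw [padicNorm.eq_zpow_of_nonzero (by positivity)]
  rw [one_div, padicValRat.inv, padicValRat.of_nat]
  simp

/-- Two different numbers of the same `2`-adic valuation have, between them, one of larger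
valuation. -/
theorem between (x y : ℕ) (hx : x ≠ 0) (hxy : x < y)
    (h : padicValNat 2 x = padicValNat 2 y) :
    ∃ z, x < z ∧ z < y ∧ padicValNat 2 x < padicValNat 2 z := by
  have hy : y ≠ 0 := by omega
  obtain ⟨u, hu⟩ : 2 ^ padicValNat 2 x ∣ x := pow_padicValNat_dvd
  obtain ⟨v, hv⟩ : 2 ^ padicValNat 2 y ∣ y := pow_padicValNat_dvd
  rw [← h] at hv
  set k := padicValNat 2 x with hk
  have hpos : 0 < 2 ^ k := by positivity
  have hnu : ¬ 2 ∣ u := by
    rintro ⟨w, rfl⟩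
    have : 2 ^ (k + 1) ∣ x := ⟨w, by rw [hu]; ring⟩
    exact pow_succ_padicValNat_not_dvd hx this
  have hnv : ¬ 2 ∣ v := by
    rintro ⟨w, rfl⟩
    have h2 : 2 ^ (k + 1) ∣ y := ⟨w, by rw [hv]; ring⟩
    rw [h] at h2
    exact pow_succ_padicValNat_not_dvd hy h2
  have huv : u < v := by
    rw [hu, hv] at hxy
    exact lt_of_mul_lt_mul_left hxy (Nat.zero_le _)
  have huv2 : u + 1 < v := by omega
  refine ⟨2 ^ k * (u + 1), ?_, ?_, ?_⟩
  · calc x = 2 ^ k * u := hu
      _ < 2 ^ k * (u + 1) := by exact Nat.mul_lt_mul_of_pos_left (by omega) hpos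
  · calc 2 ^ k * (u + 1) < 2 ^ k * v := by exact Nat.mul_lt_mul_of_pos_left huv2 hpos
      _ = y := hv.symm
  · have hz : 2 ^ k * (u + 1) ≠ 0 := by positivity
    have hd : 2 ^ (k + 1) ∣ 2 ^ k * (u + 1) := by
      rw [pow_succ]
      exact Nat.mul_dvd_mul_left _ (by omega)
    have := (padicValNat_dvd_iff_le hz).1 hd
    omega

theorem hs_two (a b m N : ℕ) (ha : 1000 ≤ a) (hab : a ≤ b) (hb : b < 2 * a) (hm : 1 ≤ m)
    (h : ∑ n ∈ Finset.Icc a b, (1 / (n : ℚ)) + 1 / (m : ℚ) = (N : ℚ)) : False := by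
  have ha0 : (0 : ℚ) < a := by exact_mod_cast (by omega : 0 < a)
  have hm0 : (0 : ℚ) < m := by exact_mod_cast (by omega : 0 < m)
  have hm1 : (1 : ℚ) ≤ m := by exact_mod_cast hm
  have hS1 : ∑ n ∈ Finset.Icc a b, (1 / (n : ℚ)) ≤ 5 / 6 := by
    refine le_trans ?_ (block_le a (by omega))
    apply Finset.sum_le_sum_of_subset_of_nonneg
    · intro n hn
      rw [Finset.mem_Icc] at hn
      rw [Finset.mem_Ico]
      omega
    · intro i _ _
      positivity
  have hS0 : 0 < ∑ n ∈ Finset.Icc a b, (1 / (n : ℚ)) := by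
    apply Finset.sum_pos
    · intro i hi
      rw [Finset.mem_Icc] at hi
      have : (0 : ℚ) < i := by exact_mod_cast (by omega : 0 < i)
      positivity
    · exact ⟨a, Finset.mem_Icc.2 ⟨le_refl _, hab⟩⟩
  have hS2 : ∑ n ∈ Finset.Icc a b, (1 / (n : ℚ)) ≤ ((b + 1 - a : ℕ) : ℚ) * (1 / (a : ℚ)) := by
    have := Finset.sum_le_card_nsmul (Finset.Icc a b) (fun n : ℕ => (1 / (n : ℚ))) (1 / (a : ℚ))
      (fun n hn => by
        rw [Finset.mem_Icc] at hn
        have : (a : ℚ) ≤ n := by exact_mod_cast hn.1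
        exact one_div_le_one_div_of_le ha0 this)
    rw [Nat.card_Icc, nsmul_eq_mul] at this
    exact this
  set S := ∑ n ∈ Finset.Icc a b, (1 / (n : ℚ)) with hS
  have hm2 : 1 / (m : ℚ) ≤ 1 := by
    rw [div_le_one hm0]; exact hm1
  have hm3 : 0 < 1 / (m : ℚ) := by positivity
  have hN : N = 1 := by
    have h1 : (N : ℚ) < 2 := by rw [← h]; linarith
    have h2 : (0 : ℚ) < N := by rw [← h]; linarith
    have h3 : N < 2 := by exact_mod_cast h1
    have h4 : 0 < N := by exact_mod_cast h2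
    omega
  subst hN
  have hmS : 1 / (m : ℚ) = 1 - S := by
    push_cast at h
    linarith
  have hm6 : m ≤ 6 := by
    have h1 : 1 / 6 ≤ 1 / (m : ℚ) := by rw [hmS]; linarith
    have h2 : (m : ℚ) ≤ 6 := by
      rw [div_le_div_iff₀ (by norm_num) hm0] at h1
      linarith
    exact_mod_cast h2
  have hm2' : 2 ≤ m := by
    by_contra hcon
    have : m = 1 := by omega
    subst this
    norm_num at hmS
    linarith
  have hmhalf : 1 / (m : ℚ) ≤ 1 / 2 := by
    have : (2 : ℚ) ≤ m := by exact_mod_cast hm2'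
    exact one_div_le_one_div_of_le (by norm_num) this
  have hlen : 500 ≤ b + 1 - a := by
    have h1 : 1 / 2 ≤ ((b + 1 - a : ℕ) : ℚ) * (1 / (a : ℚ)) := by linarith
    have h2 : (a : ℚ) ≤ 2 * ((b + 1 - a : ℕ) : ℚ) := by
      rw [mul_one_div, div_le_div_iff₀ (by norm_num) ha0] at h1
      linarith
    have h3 : a ≤ 2 * (b + 1 - a) := by exact_mod_cast h2
    omega
  -- the element of maximal valuation
  obtain ⟨n0, hn0, hmax⟩ := Finset.exists_max_image (Finset.Icc a b) (fun n => padicValNat 2 n)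
    ⟨a, Finset.mem_Icc.2 ⟨le_refl _, hab⟩⟩
  have hn0' := Finset.mem_Icc.1 hn0
  have hk4 : 4 ≤ padicValNat 2 n0 := by
    have h1 : 16 * ((a + 15) / 16) ∈ Finset.Icc a b := by
      rw [Finset.mem_Icc]; omega
    have h2 : 2 ^ 4 ∣ 16 * ((a + 15) / 16) := ⟨(a + 15) / 16, by norm_num⟩
    have h3 : 16 * ((a + 15) / 16) ≠ 0 := by
      have := (Finset.mem_Icc.1 h1).1
      omega
    have h4 := (padicValNat_dvd_iff_le h3).1 h2
    exact le_trans h4 (hmax _ h1)
  have huniq : ∀ n ∈ (Finset.Icc a b).erase n0, padicValNat 2 n < padicValNat 2 n0 := by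
    intro n hn
    rw [Finset.mem_erase] at hn
    have hnI := Finset.mem_Icc.1 hn.2
    rcases lt_or_eq_of_le (hmax n hn.2) with h1 | h1
    · exact h1
    · exfalso
      rcases lt_or_gt_of_ne hn.1 with h2 | h2
      · obtain ⟨z, hz1, hz2, hz3⟩ := between n n0 (by omega) h2 h1
        have := hmax z (Finset.mem_Icc.2 ⟨by omega, by omega⟩)
        omega
      · obtain ⟨z, hz1, hz2, hz3⟩ := between n0 n (by omega) h2 h1.symm
        have := hmax z (Finset.mem_Icc.2 ⟨by omega, by omega⟩)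
        omega
  set k := padicValNat 2 n0 with hk
  have hne : ((Finset.Icc a b).erase n0).Nonempty := by
    rw [← Finset.card_pos, Finset.card_erase_of_mem hn0, Nat.card_Icc]
    omega
  have hrest : padicNorm 2 (∑ n ∈ (Finset.Icc a b).erase n0, (1 / (n : ℚ))) < (2 : ℚ) ^ k := by
    apply padicNorm.sum_lt hne
    intro n hn
    have hnI := Finset.mem_Icc.1 (Finset.mem_erase.1 hn).2
    rw [norm_inv n (by omega)]
    exact pow_lt_pow_right₀ (by norm_num) (huniq n hn)
  have hn0n : padicNorm 2 (1 / (n0 : ℚ)) = (2 : ℚ) ^ k := norm_inv n0 (by omega)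
  have hsplit : S = 1 / (n0 : ℚ) + ∑ n ∈ (Finset.Icc a b).erase n0, (1 / (n : ℚ)) := by
    rw [hS]
    exact (Finset.add_sum_erase (Finset.Icc a b) (fun n : ℕ => (1 / (n : ℚ))) hn0).symm
  have hSn : padicNorm 2 S = (2 : ℚ) ^ k := by
    rw [hsplit, padicNorm.add_eq_max_of_ne (by rw [hn0n]; exact (ne_of_lt hrest).symm), hn0n]
    exact max_eq_left hrest.le
  have hk16 : (16 : ℚ) ≤ 2 ^ k := by
    calc (16 : ℚ) = 2 ^ 4 := by norm_num
      _ ≤ 2 ^ k := pow_le_pow_right₀ (by norm_num) hk4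
  have hS' : S = 1 - 1 / (m : ℚ) := by linarith
  have hle : padicNorm 2 S ≤ 4 := by
    rw [hS']
    refine le_trans (padicNorm.sub (p := 2)) ?_
    apply max_le
    · rw [padicNorm.one]; norm_num
    · rw [norm_inv m (by omega)]
      have hv : padicValNat 2 m ≤ 2 := by
        by_contra hcon
        push Not at hcon
        have h1 : 2 ^ 3 ∣ m := (padicValNat_dvd_iff_le (by omega)).2 hcon
        have := Nat.le_of_dvd (by omega) h1
        omega
      calc (2 : ℚ) ^ padicValNat 2 m ≤ 2 ^ 2 := pow_le_pow_right₀ (by norm_num) hv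
        _ = 4 := by norm_num
  rw [hSn] at hle
  linarith

end Pool.Agent.W344.HS
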